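import Pool.Agent.H562R3.QFinal

set_option autoImplicit false

/-!
MP_97d187_lc: in ZFC, the number of Q-points up to isomorphism is never exactly countably infinite.
-/

namespace Pool.Agent.Results.MP_97d187_lc.NeverCountable

open Pool.Agent.H562R3 Set

/-- A Q-point: a nonprincipal ultrafilter on the natural numbers such that for every partition of the
natural numbers into finite sets some member of the ultrafilter meets every piece in at most one
point. -/
def IsQPoint (U : Ultrafilter ℕ) : Prop :=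
  (∀ n : ℕ, ({n} : Set ℕ) ∉ U) ∧
  ∀ P : Set (Set ℕ), Setoid.IsPartition P → (∀ p ∈ P, p.Finite) →
    ∃ X ∈ U, ∀ p ∈ P, (X ∩ p).Subsingleton

/-- The isomorphism relation between Q-points: `V` is the image of `U` under a permutation of the
natural numbers. -/
def isoSetoid : Setoid {U : Ultrafilter ℕ // IsQPoint U} where
  r U V := ∃ σ : Equiv.Perm ℕ, U.1.map σ = V.1
  iseqv := by
    refine ⟨fun U => ⟨1, ?_⟩, ?_, ?_⟩
    · ext s
      exact Iff.rfl
    · rintro U V ⟨σ, hσ⟩
      refine ⟨σ.symm, ?_⟩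
      rw [← hσ]
      ext s
      show σ ⁻¹' (σ.symm ⁻¹' s) ∈ U.1 ↔ s ∈ U.1
      rw [← Set.preimage_comp]
      simp
    · rintro U V W ⟨σ, hσ⟩ ⟨τ, hτ⟩
      refine ⟨σ.trans τ, ?_⟩
      rw [← hτ, ← hσ]
      ext s
      exact Iff.rfl

theorem IsQPoint.sel {U : Ultrafilter ℕ} (hU : IsQPoint U) (f : ℕ → ℕ)
    (hf : ∀ m, {i | f i = m}.Finite) : ∃ X ∈ U, InjOn f X := by
  obtain ⟨X, hX, hsub⟩ := hU.2 (Setoid.ker f).classes (Setoid.isPartition_classes _) (by
    rintro p ⟨y, rfl⟩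
    refine (hf (f y)).subset ?_
    intro x hx
    exact hx)
  refine ⟨X, hX, ?_⟩
  intro x hx y hy hxy
  exact hsub {z | (Setoid.ker f) z y} ⟨y, rfl⟩ ⟨hx, hxy⟩ ⟨hy, rfl⟩

theorem isQPoint_of_sel {D : Set (ℕ → ℕ)} (hD : Dominating D) {U : Ultrafilter ℕ}
    (hU : ∀ n : ℕ, ({n} : Set ℕ) ∉ U) (h : ∀ d ∈ D, ∀ b, ∃ X ∈ U, InjOn (g b d) X) :
    IsQPoint U := by
  refine ⟨hU, fun P hP hfin => ?_⟩
  have hex : ∀ i : ℕ, ∃ p ∈ P, i ∈ p := fun i => by
    obtain ⟨p, hp, _⟩ := hP.2 i
    exact ⟨p, hp.1, hp.2⟩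
  choose p hp hip using hex
  have huniq : ∀ q ∈ P, ∀ i ∈ q, q = p i := by
    intro q hq i hi
    obtain ⟨r, _, hr⟩ := hP.2 i
    rw [hr q ⟨hq, hi⟩, hr (p i) ⟨hp i, hip i⟩]
  obtain ⟨d, hd, N, hN⟩ := exists_g hD (fun i => sSup (p i))
  obtain ⟨X0, hX0, hi0⟩ := h d hd false
  obtain ⟨X1, hX1, hi1⟩ := h d hd true
  have hNU : ({i | i < N} : Set ℕ)ᶜ ∈ U :=
    Ultrafilter.compl_mem_iff_notMem.mpr (nonprincipal_fin hU _ (Set.finite_Iio N))
  refine ⟨(X0 ∩ X1) ∩ ({i | i < N} : Set ℕ)ᶜ,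
    Filter.inter_mem (Filter.inter_mem hX0 hX1) hNU, ?_⟩
  intro q hq
  have haux : ∀ i ∈ ((X0 ∩ X1) ∩ ({i | i < N} : Set ℕ)ᶜ) ∩ q,
      ∀ j ∈ ((X0 ∩ X1) ∩ ({i | i < N} : Set ℕ)ᶜ) ∩ q, i ≤ j → i = j := by
    rintro i ⟨⟨⟨hi1', hi2'⟩, hi3⟩, hi4⟩ j ⟨⟨⟨hj1, hj2⟩, hj3⟩, hj4⟩ hij
    have hi3' : N ≤ i := by
      simp only [Set.mem_compl_iff, Set.mem_ofPred_eq, not_lt] at hi3
      exact hi3
    have hjp : j ∈ p i := by
      rw [← huniq q hq i hi4]
      exact hj4
    have hle : j ≤ sSup (p i) := le_csSup (hfin _ (hp i)).bddAbove hjp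
    rcases hN i hi3' j hij hle with h2 | h2
    · exact hi0 hi1' hj1 h2
    · exact hi1 hi2' hj2 h2
  intro i hi j hj
  rcases le_total i j with hij | hij
  · exact haux i hi j hj hij
  · exact (haux j hj i hi hij).symm

/-- almost disjoint sets coded by the branches of the binary tree -/
def branch (f : ℕ → Bool) : Set ℕ :=
  Set.range (fun n => Encodable.encode ((List.range n).map f))

theorem branch_inj (f f' : ℕ → Bool) (n n' : ℕ)
    (h : Encodable.encode ((List.range n).map f) = Encodable.encode ((List.range n').map f')) :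
    n = n' ∧ ∀ i < n, f i = f' i := by
  have h1 : (List.range n).map f = (List.range n').map f' := Encodable.encode_injective h
  have h2 : n = n' := by
    have := congrArg List.length h1
    simpa using this
  subst h2
  refine ⟨rfl, fun i hi => ?_⟩
  have h3 : ((List.range n).map f)[i]? = ((List.range n).map f')[i]? := by rw [h1]
  simpa [hi] using h3

theorem branch_infinite (f : ℕ → Bool) : (branch f).Infinite := by
  apply Set.infinite_range_of_injective
  intro n n' h
  exact (branch_inj f f n n' h).1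

theorem branch_inter {f f' : ℕ → Bool} (h : f ≠ f') : (branch f ∩ branch f').Finite := by
  obtain ⟨i, hi⟩ := Function.ne_iff.mp h
  refine ((Set.finite_Iic i).image (fun n => Encodable.encode ((List.range n).map f))).subset ?_
  rintro x ⟨⟨n, hn⟩, ⟨n', hn'⟩⟩
  refine ⟨n, ?_, hn⟩
  have := branch_inj f f' n n' (hn.trans hn'.symm)
  by_contra hcon
  simp only [Set.mem_Iic, not_le] at hcon
  exact hi (this.2 i hcon)

/-- The number of isomorphism classes of Q-points is finite or at least the continuum. In particular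
it is never exactly countably infinite. -/
theorem result : Cardinal.mk (Quotient isoSetoid) < Cardinal.aleph0 ∨
    Cardinal.continuum ≤ Cardinal.mk (Quotient isoSetoid) := by
  by_contra hcon
  push Not at hcon
  obtain ⟨hinf, hlt⟩ := hcon
  -- an infinite sequence of pairwise non-isomorphic Q-points
  obtain ⟨e⟩ : Nonempty (ℕ ↪ Quotient isoSetoid) := by
    have := Cardinal.infinite_iff.mpr hinf
    exact ⟨Infinite.natEmbedding _⟩
  let V : ℕ → {U : Ultrafilter ℕ // IsQPoint U} := fun k => (e k).out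
  let u : ℕ → Ultrafilter ℕ := fun k => (V k).1
  have hVQ : ∀ k, IsQPoint (u k) := fun k => (V k).2
  have hV : ∀ j k, (∃ σ : Equiv.Perm ℕ, (u j).map σ = u k) → j = k := by
    intro j k h
    have h1 : isoSetoid (V j) (V k) := h
    have h2 : (⟦V j⟧ : Quotient isoSetoid) = ⟦V k⟧ := Quotient.sound h1
    simp only [V, Quotient.out_eq] at h2
    exact e.injective h2
  have hinj : ∀ d b, Function.Injective (fun k => (u k).map (g b d)) := by
    intro d b j k hjk
    exact hV j k (iso_of_map_eq (hVQ j).1 (g b d) (g_fin b d) ((hVQ j).sel _ (g_fin b d))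
      ((hVQ k).sel _ (g_fin b d)) hjk)
  -- a dominating family of minimal size
  obtain ⟨D, hDc, hD⟩ := dNum_mem
  let ι := dNum.ord.ToType
  have hιc : Cardinal.mk ι = Cardinal.mk D := by
    rw [hDc]
    simp [ι]
  obtain ⟨φ⟩ := Cardinal.eq.mp hιc
  have hseg : ∀ a : ι, Cardinal.mk (Set.Iio a) < dNum := fun a => Cardinal.mk_Iio_toType_ord_lt a
  have hW : ∀ f : ℕ → Bool, ∃ W : Ultrafilter ℕ, branch f ∈ W ∧ (∀ s : Set ℕ, s.Finite → s ∉ W) ∧
      ∀ a : ι, ∀ b, ∃ A ∈ W, Good (fun k => (u k).map (g b (φ a).1)) A := by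
    intro f
    exact exists_good_ultra hseg (fun a b k => (u k).map (g b (φ a).1)) (fun a b => hinj _ b)
      (branch f) (branch_infinite f)
  choose W hWb hWf hWg using hW
  have hWg' : ∀ f, ∀ d ∈ D, ∀ b, ∃ A ∈ W f, Good (fun k => (u k).map (g b d)) A := by
    intro f d hd b
    have := hWg f (φ.symm ⟨d, hd⟩) b
    simpa using this
  have hnp : ∀ f, ∀ n : ℕ, ({n} : Set ℕ) ∉ (W f).bind u := by
    intro f n hn
    rw [bind_mem] at hn
    obtain ⟨k, hk⟩ := Ultrafilter.nonempty_of_mem hn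
    exact (hVQ k).1 n hk
  have hQ : ∀ f, IsQPoint ((W f).bind u) := by
    intro f
    apply isQPoint_of_sel hD (hnp f)
    intro d hd b
    exact limit_sel (hinj d b) (fun k => (hVQ k).sel _ (g_fin b d)) (W f) (hWf f) (hWg' f d hd b)
  let Φ : (ℕ → Bool) → Quotient isoSetoid := fun f => ⟦⟨(W f).bind u, hQ f⟩⟧
  have hΦ : Function.Injective Φ := by
    intro f f' hff
    by_contra hne
    obtain ⟨σ, hσ⟩ : ∃ σ : Equiv.Perm ℕ, ((W f).bind u).map σ = (W f').bind u :=
      Quotient.exact hff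
    obtain ⟨d, hd, b, hb⟩ := map_eq_of_iso hD (hnp f) σ
    rw [hσ, bind_map, bind_map] at hb
    exact limit_ne (hinj d b) (W f) (W f') (hWf f) (hWf f') (hWg' f d hd b) (hWg' f' d hd b)
      (branch f) (branch f') (hWb f) (hWb f') (branch_inter hne) hb
  have hle := Cardinal.mk_le_of_injective hΦ
  have hcard : Cardinal.mk (ℕ → Bool) = Cardinal.continuum := by simp
  rw [hcard] at hle
  exact absurd hle (not_le.mpr hlt)

end Pool.Agent.Results.MP_97d187_lc.NeverCountable
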